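import Mathlib
import Pool.Agent.Helper92.BW.GoalsA

set_option autoImplicit false

namespace Pool.Agent.Helper40.BW

open MeasureTheory Finset
open scoped ENNReal
open Pool.Agent.Helper92.BW

variable {n : ℕ} {ι : Type}

theorem iter_le {par : ℕ → ℕ} (h : ∀ i, i ≤ par i) (t : ℕ) : ∀ i, i ≤ par^[t] i := by
  induction t with
  | zero => intro i; exact le_rfl
  | succ t ih =>
    intro i
    rw [Function.iterate_succ_apply]
    exact (h i).trans (ih _)

theorem abv_le {par : ℕ → ℕ} (h : ∀ i, i ≤ par i) {i j : ℕ} (ha : Abv par i j) : i ≤ j := by
  obtain ⟨t, rfl⟩ := ha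
  exact iter_le h t i

theorem ind_meas (a : ι → Fin n → ℝ) (s : ι → ℝ) (τ : ℝ) (r : ι) :
    Measurable (ind a s τ r) := by
  unfold ind
  apply Measurable.ite _ measurable_const measurable_const
  apply measurableSet_le measurable_const
  unfold ip
  exact Finset.measurable_sum _ (fun j _ => measurable_const.mul (measurable_pi_apply j))

theorem ind_update (a : ι → Fin n → ℝ) (s : ι → ℝ) (τ : ℝ) (r : ι) (u : Fin n → ℝ) (v : Fin n)
    (t : ℝ) (h : a r v = 0) : ind a s τ r (Function.update u v t) = ind a s τ r u := by
  have : ip (a r) (Function.update u v t) = ip (a r) u := by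
    unfold ip
    apply sum_congr rfl
    intro j _
    by_cases hj : j = v
    · subst hj; rw [h, zero_mul, zero_mul]
    · rw [Function.update_of_ne hj]
  unfold ind
  rw [this]

theorem prod_ind [Fintype ι] (a : ι → Fin n → ℝ) (s : ι → ℝ) (τ : ℝ) :
    (fun u => ∏ r, ind a s τ r u) = (PS a s τ).indicator 1 := by
  funext u
  by_cases h : u ∈ PS a s τ
  · rw [Set.indicator_of_mem h]
    apply prod_eq_one
    intro r _
    unfold ind
    rw [if_pos (h r)]
  · rw [Set.indicator_of_notMem h]
    have : ∃ r, ¬ (-(τ * s r) ≤ ip (a r) u) := by
      by_contra hcon
      push Not at hcon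
      exact h hcon
    obtain ⟨r, hr⟩ := this
    apply prod_eq_zero (mem_univ r)
    unfold ind
    rw [if_neg hr]

theorem PS_meas [Fintype ι] (a : ι → Fin n → ℝ) (s : ι → ℝ) (τ : ℝ) :
    MeasurableSet (PS a s τ) := by
  have : PS a s τ = ⋂ r, {u | -(τ * s r) ≤ ip (a r) u} := by
    ext u
    simp [PS]
  rw [this]
  apply MeasurableSet.iInter
  intro r
  apply measurableSet_le measurable_const
  unfold ip
  exact Finset.measurable_sum _ (fun j _ => measurable_const.mul (measurable_pi_apply j))

theorem fub (hD : DepStmt) (hM : MesStmt) : FubStmt := by
  intro n ι _ par low a s τ hC u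
  classical
  obtain ⟨hp1, hp2, hp3⟩ := hC
  set f : (Fin n → ℝ) → ℝ≥0∞ := fun u => ∏ r, ind a s τ r u with hf
  have hfm : Measurable f := Finset.measurable_prod _ (fun r _ => ind_meas a s τ r)
  have key : ∀ j : ℕ, j ≤ n → ∀ u : Fin n → ℝ,
      lmarginal (fun _ : Fin n => (volume : Measure ℝ)) (univ.filter (fun i : Fin n => i.val < j))
        f u = (∏ r ∈ univ.filter (fun r => j ≤ (low r).val), ind a s τ r u) *
        ∏ c ∈ univ.filter (fun c : Fin n => c.val < j ∧ j ≤ par c), msg par low a s τ c u := by
    intro j
    induction j with
    | zero =>
      intro _ u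
      have h1 : (univ.filter (fun i : Fin n => i.val < 0)) = ∅ := by
        apply filter_false_of_mem; intro i _; omega
      have h2 : (univ.filter (fun c : Fin n => c.val < 0 ∧ 0 ≤ par c)) = ∅ := by
        apply filter_false_of_mem; intro i _; omega
      have h3 : (univ.filter (fun r => 0 ≤ (low r).val)) = univ := by
        apply filter_true_of_mem; intro i _; omega
      rw [h1, h2, h3, lmarginal_empty, prod_empty, mul_one]
    | succ j ih =>
      intro hj u
      obtain ⟨v, hv⟩ : ∃ v : Fin n, v.val = j := ⟨⟨j, by omega⟩, rfl⟩
      have h1 : (univ.filter (fun i : Fin n => i.val < j + 1)) =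
          insert v (univ.filter (fun i : Fin n => i.val < j)) := by
        ext i
        rw [mem_filter, mem_insert, mem_filter]
        constructor
        · rintro ⟨_, h⟩
          by_cases hi : i = v
          · exact Or.inl hi
          · right
            refine ⟨mem_univ _, ?_⟩
            have : i.val ≠ v.val := fun h => hi (Fin.ext h)
            omega
        · rintro (h | h)
          · subst h; exact ⟨mem_univ _, by omega⟩
          · exact ⟨mem_univ _, by omega⟩
      have hnot : v ∉ univ.filter (fun i : Fin n => i.val < j) := by
        rw [mem_filter]; omega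
      rw [h1, lmarginal_insert f hfm hnot]
      -- the constant factors
      have hrow : ∀ t : ℝ, ∏ r ∈ univ.filter (fun r => j ≤ (low r).val),
          ind a s τ r (Function.update u v t) =
          (∏ r ∈ univ.filter (fun r => j + 1 ≤ (low r).val), ind a s τ r u) *
          ∏ r ∈ univ.filter (fun r => low r = v), ind a s τ r (Function.update u v t) := by
        intro t
        have hsp : univ.filter (fun r => j ≤ (low r).val) =
            univ.filter (fun r => j + 1 ≤ (low r).val) ∪ univ.filter (fun r => low r = v) := by
          ext r
          rw [mem_union, mem_filter, mem_filter, mem_filter]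
          constructor
          · rintro ⟨_, h⟩
            rcases Nat.eq_or_lt_of_le h with h | h
            · exact Or.inr ⟨mem_univ _, Fin.ext (by omega)⟩
            · exact Or.inl ⟨mem_univ _, h⟩
          · rintro (h | h)
            · exact ⟨mem_univ _, by omega⟩
            · refine ⟨mem_univ _, ?_⟩
              rw [h.2]; omega
        have hdj : Disjoint (univ.filter (fun r => j + 1 ≤ (low r).val))
            (univ.filter (fun r => low r = v)) := by
          rw [Finset.disjoint_filter]
          intro r _ h h'
          rw [h'] at h
          omega
        rw [hsp, prod_union hdj]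
        congr 1
        apply prod_congr rfl
        intro r hr
        rw [mem_filter] at hr
        apply ind_update
        by_contra hne
        have := abv_le hp1 (hp3 r v hne)
        omega
      have hch : ∀ t : ℝ, ∏ c ∈ univ.filter (fun c : Fin n => c.val < j ∧ j ≤ par c),
          msg par low a s τ c (Function.update u v t) =
          (∏ c ∈ univ.filter (fun c : Fin n => c.val < j ∧ j + 1 ≤ par c),
            msg par low a s τ c u) *
          ∏ c : Ch par v, msg par low a s τ c.1 (Function.update u v t) := by
        intro t
        have hsp : univ.filter (fun c : Fin n => c.val < j ∧ j ≤ par c) =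
            univ.filter (fun c : Fin n => c.val < j ∧ j + 1 ≤ par c) ∪
              univ.filter (fun c : Fin n => c < v ∧ par c = v) := by
          ext c
          rw [mem_union, mem_filter, mem_filter, mem_filter, Fin.lt_def, hv]
          constructor
          · rintro ⟨_, h, h'⟩
            rcases Nat.eq_or_lt_of_le h' with h'' | h''
            · exact Or.inr ⟨mem_univ _, h, h''.symm⟩
            · exact Or.inl ⟨mem_univ _, h, h''⟩
          · rintro (h | h)
            · exact ⟨mem_univ _, h.2.1, by omega⟩
            · exact ⟨mem_univ _, h.2.1, by omega⟩
        have hdj : Disjoint (univ.filter (fun c : Fin n => c.val < j ∧ j + 1 ≤ par c))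
            (univ.filter (fun c : Fin n => c < v ∧ par c = v)) := by
          rw [Finset.disjoint_filter]
          rintro c _ h h'
          omega
        rw [hsp, prod_union hdj]
        congr 1
        · apply prod_congr rfl
          intro c hc
          rw [mem_filter] at hc
          apply hD n ι par low a s τ ⟨hp1, hp2, hp3⟩
          intro i _ hi'
          have := abv_le hp1 hi'
          apply Function.update_of_ne
          intro h
          subst h
          omega
        · apply prod_subtype
          intro c
          rw [mem_filter]
          exact ⟨fun h => h.2, fun h => ⟨mem_univ _, h⟩⟩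
      have hlast : ∏ c ∈ univ.filter (fun c : Fin n => c.val < j + 1 ∧ j + 1 ≤ par c),
          msg par low a s τ c u =
          (∏ c ∈ univ.filter (fun c : Fin n => c.val < j ∧ j + 1 ≤ par c),
            msg par low a s τ c u) * msg par low a s τ v u := by
        have hvp : j + 1 ≤ par v := by have := hp2 v.val v.2; omega
        have hsp : univ.filter (fun c : Fin n => c.val < j + 1 ∧ j + 1 ≤ par c) =
            insert v (univ.filter (fun c : Fin n => c.val < j ∧ j + 1 ≤ par c)) := by
          ext c
          rw [mem_filter, mem_insert, mem_filter]
          constructor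
          · rintro ⟨_, h, h'⟩
            by_cases hi : c = v
            · exact Or.inl hi
            · right
              refine ⟨mem_univ _, ?_, h'⟩
              have : c.val ≠ v.val := fun h => hi (Fin.ext h)
              omega
          · rintro (h | h)
            · subst h; exact ⟨mem_univ _, by omega, hvp⟩
            · exact ⟨mem_univ _, by omega, h.2.2⟩
        rw [hsp, prod_insert (by rw [mem_filter]; omega), mul_comm]
      rw [hlast, msg_eq]
      have hmeas : Measurable (fun t : ℝ =>
          (∏ r ∈ univ.filter (fun r => low r = v), ind a s τ r (Function.update u v t)) *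
            ∏ c : Ch par v, msg par low a s τ c.1 (Function.update u v t)) := by
        apply Measurable.mul
        · exact Finset.measurable_prod _
            (fun r _ => (ind_meas a s τ r).comp (measurable_update u))
        · exact Finset.measurable_prod _
            (fun c _ => (hM n ι par low a s τ c.1).comp (measurable_update u))
      rw [← mul_assoc, ← lintegral_const_mul _ hmeas]
      apply lintegral_congr
      intro t
      rw [ih (by omega), hrow, hch]
      ring
  have h1 := key n le_rfl u
  have h2 : (univ.filter (fun i : Fin n => i.val < n)) = univ := by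
    apply filter_true_of_mem; intro i _; exact i.2
  have h3 : (univ.filter (fun r => n ≤ (low r).val)) = ∅ := by
    apply filter_false_of_mem; intro r _; have := (low r).2; omega
  rw [h2, h3, prod_empty, one_mul, lmarginal_univ, ← volume_pi] at h1
  have h4 : ∫⁻ x, f x = volume (PS a s τ) := by
    rw [hf, prod_ind a s τ, lintegral_indicator_one (PS_meas a s τ)]
  rw [← h4]
  refine Eq.trans h1 ?_
  apply prod_subtype
  intro c
  rw [mem_filter]
  exact ⟨fun h => h.2.2, fun h => ⟨mem_univ _, c.2, h⟩⟩

end Pool.Agent.Helper40.BW
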